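import Pool.Agent.helper95.FJ.SpecE

set_option autoImplicit false

/-! # FJ row TIA: the sum over `a` for fixed `l` -/

open Finset

noncomputable section

namespace Pool.Agent.FJ

open Pool.Agent.FI

open scoped Classical in
/-- two residue classes have almost the same sum -/
lemma TIA_pair (A m : ℕ) (hm : 0 < m) (f : ℤ → ℝ) (F : ℝ) (hf0 : ∀ a ∈ Icc (1 : ℤ) A, 0 ≤ f a)
    (hF : ∀ a ∈ Icc (1 : ℤ) A, f a ≤ F) (hF0 : 0 ≤ F)
    (hanti : ∀ a b : ℤ, 1 ≤ a → a ≤ b → b ≤ A → f b ≤ f a) (c c' : ℤ) :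
    ∑ a ∈ (Icc (1 : ℤ) A).filter (fun a => (m : ℤ) ∣ a - c), f a ≤
      F + ∑ a ∈ (Icc (1 : ℤ) A).filter (fun a => (m : ℤ) ∣ a - c'), f a := by
  have hm' : (0 : ℤ) < (m : ℤ) := by exact_mod_cast hm
  set r : ℤ := (c - 1) % m + 1 with hr
  set r' : ℤ := (c' - 1) % m + 1 with hr'
  have hr1 : 1 ≤ r ∧ r ≤ m := by
    have h1 := Int.emod_nonneg (c - 1) hm'.ne'
    have h2 := Int.emod_lt_of_pos (c - 1) hm'
    omega
  have hr1' : 1 ≤ r' ∧ r' ≤ m := by
    have h1 := Int.emod_nonneg (c' - 1) hm'.ne'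
    have h2 := Int.emod_lt_of_pos (c' - 1) hm'
    omega
  have hrc : (m : ℤ) ∣ r - c := by
    refine ⟨-((c - 1) / m), ?_⟩
    have := Int.emod_add_mul_ediv (c - 1) m
    linarith
  have hrc' : (m : ℤ) ∣ r' - c' := by
    refine ⟨-((c' - 1) / m), ?_⟩
    have := Int.emod_add_mul_ediv (c' - 1) m
    linarith
  rw [← Finset.sum_filter_add_sum_filter_not ((Icc (1 : ℤ) A).filter (fun a => (m : ℤ) ∣ a - c))
    (fun a : ℤ => a ≤ (m : ℤ))]
  refine add_le_add ?_ ?_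
  · have hcard : (((Icc (1 : ℤ) A).filter (fun a => (m : ℤ) ∣ a - c)).filter (fun a : ℤ => a ≤ (m : ℤ))).card ≤ 1 := by
      rw [Finset.card_le_one]
      intro a ha b hb
      simp only [mem_filter, mem_Icc] at ha hb
      have h1 : (m : ℤ) ∣ a - b := by
        have := dvd_sub ha.1.2 hb.1.2
        have e : a - c - (b - c) = a - b := by ring
        rwa [e] at this
      have h2 : |a - b| < m := by
        rw [abs_lt]
        constructor <;> omega
      have h3 := Int.eq_zero_of_abs_lt_dvd h1 h2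
      omega
    calc ∑ a ∈ ((Icc (1 : ℤ) A).filter (fun a => (m : ℤ) ∣ a - c)).filter (fun a : ℤ => a ≤ (m : ℤ)), f a
        ≤ ∑ _a ∈ ((Icc (1 : ℤ) A).filter (fun a => (m : ℤ) ∣ a - c)).filter (fun a : ℤ => a ≤ (m : ℤ)), F :=
          Finset.sum_le_sum fun a ha => hF a (mem_filter.1 (mem_filter.1 ha).1).1
      _ = (((Icc (1 : ℤ) A).filter (fun a => (m : ℤ) ∣ a - c)).filter (fun a : ℤ => a ≤ (m : ℤ))).card * F := by
          rw [Finset.sum_const, nsmul_eq_mul]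
      _ ≤ 1 * F := mul_le_mul_of_nonneg_right (by exact_mod_cast hcard) hF0
      _ = F := one_mul F
  · have hbig : ∀ a ∈ ((Icc (1 : ℤ) A).filter (fun a => (m : ℤ) ∣ a - c)).filter (fun a : ℤ => ¬ a ≤ (m : ℤ)),
        1 ≤ a ∧ a ≤ A ∧ (m : ℤ) ∣ a - c ∧ m + r ≤ a := by
      intro a ha
      simp only [mem_filter, mem_Icc] at ha
      refine ⟨ha.1.1.1, ha.1.1.2, ha.1.2, ?_⟩
      have h1 : (m : ℤ) ∣ a - r := by
        have := dvd_sub ha.1.2 hrc
        have e : a - c - (r - c) = a - r := by ring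
        rwa [e] at this
      obtain ⟨k, hk⟩ := h1
      have h2 : 0 < k := by
        by_contra hcon
        push Not at hcon
        have h3 : (m : ℤ) * k ≤ 0 := by nlinarith
        omega
      have h4 : (m : ℤ) * 1 ≤ m * k := mul_le_mul_of_nonneg_left (by omega) hm'.le
      omega
    set φ : ℤ → ℤ := fun a => a - m + (r' - r) with hφ
    have hφinj : Set.InjOn φ (((Icc (1 : ℤ) A).filter (fun a => (m : ℤ) ∣ a - c)).filter
        (fun a : ℤ => ¬ a ≤ (m : ℤ)) : Set ℤ) := by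
      intro a _ b _ hab
      simp only [hφ] at hab
      omega
    have hφmem : ∀ a ∈ ((Icc (1 : ℤ) A).filter (fun a => (m : ℤ) ∣ a - c)).filter (fun a : ℤ => ¬ a ≤ (m : ℤ)),
        1 ≤ φ a ∧ φ a ≤ a ∧ (m : ℤ) ∣ φ a - c' := by
      intro a ha
      obtain ⟨h1, h2, h3, h4⟩ := hbig a ha
      simp only [hφ]
      refine ⟨by omega, by omega, ?_⟩
      have e : a - m + (r' - r) - c' = (a - c) - m + (r' - c') - (r - c) := by ring
      rw [e]
      exact dvd_sub (dvd_add (dvd_sub h3 (dvd_refl _)) hrc') hrc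
    calc ∑ a ∈ ((Icc (1 : ℤ) A).filter (fun a => (m : ℤ) ∣ a - c)).filter (fun a : ℤ => ¬ a ≤ (m : ℤ)), f a
        ≤ ∑ a ∈ ((Icc (1 : ℤ) A).filter (fun a => (m : ℤ) ∣ a - c)).filter (fun a : ℤ => ¬ a ≤ (m : ℤ)), f (φ a) := by
          refine Finset.sum_le_sum fun a ha => ?_
          obtain ⟨h1, h2, h3, h4⟩ := hbig a ha
          obtain ⟨g1, g2, g3⟩ := hφmem a ha
          exact hanti _ _ g1 g2 h2
      _ = ∑ b ∈ (((Icc (1 : ℤ) A).filter (fun a => (m : ℤ) ∣ a - c)).filter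
            (fun a : ℤ => ¬ a ≤ (m : ℤ))).image φ, f b := by
          rw [Finset.sum_image hφinj]
      _ ≤ ∑ a ∈ (Icc (1 : ℤ) A).filter (fun a => (m : ℤ) ∣ a - c'), f a := by
          refine Finset.sum_le_sum_of_subset_of_nonneg ?_ fun b hb _ => hf0 b (mem_filter.1 hb).1
          intro b hb
          obtain ⟨a, ha, rfl⟩ := mem_image.1 hb
          obtain ⟨h1, h2, h3, h4⟩ := hbig a ha
          obtain ⟨g1, g2, g3⟩ := hφmem a ha
          exact mem_filter.2 ⟨mem_Icc.2 ⟨g1, g2.trans h2⟩, g3⟩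

open scoped Classical in
/-- the sum over one residue class -/
lemma TIA_cls (A m : ℕ) (hm : 0 < m) (f : ℤ → ℝ) (F : ℝ) (hf0 : ∀ a ∈ Icc (1 : ℤ) A, 0 ≤ f a)
    (hF : ∀ a ∈ Icc (1 : ℤ) A, f a ≤ F) (hF0 : 0 ≤ F)
    (hanti : ∀ a b : ℤ, 1 ≤ a → a ≤ b → b ≤ A → f b ≤ f a) (c : ℤ) :
    |∑ a ∈ (Icc (1 : ℤ) A).filter (fun a => (m : ℤ) ∣ a - c), f a -
      (∑ a ∈ Icc (1 : ℤ) A, f a) / m| ≤ F := by
  have hm' : (0 : ℤ) < (m : ℤ) := by exact_mod_cast hm
  have hmR : (0 : ℝ) < (m : ℝ) := by exact_mod_cast hm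
  set S : ℤ → ℝ := fun c => ∑ a ∈ (Icc (1 : ℤ) A).filter (fun a => (m : ℤ) ∣ a - c), f a with hS
  have htot : ∑ a ∈ Icc (1 : ℤ) A, f a = ∑ k ∈ range m, S (k : ℤ) := by
    have h1 : ∀ a ∈ Icc (1 : ℤ) A, f a = ∑ k ∈ range m, if (m : ℤ) ∣ a - (k : ℤ) then f a else 0 := by
      intro a _
      have h2 := Int.emod_nonneg a hm'.ne'
      have h3 := Int.emod_lt_of_pos a hm'
      rw [Finset.sum_eq_single (a % m).toNat]
      · rw [if_pos]
        rw [Int.toNat_of_nonneg h2]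
        exact Int.dvd_self_sub_of_emod_eq rfl
      · intro k hk hne
        rw [if_neg]
        intro hdvd
        apply hne
        have h4 : a % m = (k : ℤ) := by
          have h5 : a % m = (k : ℤ) % m := Int.emod_emod_of_dvd a (dvd_refl (m : ℤ)) ▸
            (Int.emod_emod_of_dvd a (dvd_refl (m : ℤ))).symm ▸ (Int.ModEq.symm ((Int.modEq_iff_dvd).2 hdvd))
          rw [h5]
          exact Int.emod_eq_of_lt (by positivity) (by exact_mod_cast mem_range.1 hk)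
        rw [h4]
        simp
      · intro h
        exfalso
        apply h
        rw [mem_range]
        omega
    rw [Finset.sum_congr rfl h1, Finset.sum_comm]
    refine Finset.sum_congr rfl fun k _ => ?_
    simp only [hS]
    rw [Finset.sum_filter]
  have hup : ∀ c', S c ≤ F + S c' := fun c' => TIA_pair A m hm f F hf0 hF hF0 hanti c c'
  have hdn : ∀ c', S c' ≤ F + S c := fun c' => TIA_pair A m hm f F hf0 hF hF0 hanti c' c
  have h1 : (m : ℝ) * S c ≤ m * F + ∑ k ∈ range m, S (k : ℤ) := by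
    calc (m : ℝ) * S c = ∑ _k ∈ range m, S c := by rw [Finset.sum_const, card_range, nsmul_eq_mul]
      _ ≤ ∑ k ∈ range m, (F + S (k : ℤ)) := Finset.sum_le_sum fun k _ => hup _
      _ = _ := by rw [Finset.sum_add_distrib, Finset.sum_const, card_range, nsmul_eq_mul]
  have h2 : ∑ k ∈ range m, S (k : ℤ) ≤ m * F + m * S c := by
    calc ∑ k ∈ range m, S (k : ℤ) ≤ ∑ _k ∈ range m, (F + S c) := Finset.sum_le_sum fun k _ => hdn _
      _ = _ := by
        rw [Finset.sum_const, card_range, nsmul_eq_mul]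
        ring
  rw [htot]
  show |S c - (∑ k ∈ range m, S (k : ℤ)) / m| ≤ F
  rw [abs_le]
  constructor
  · rw [neg_le_sub_iff_le_add, div_le_iff₀ hmR]
    nlinarith
  · rw [sub_le_iff_le_add, ← sub_le_iff_le_add', le_div_iff₀ hmR]
    nlinarith

open scoped Classical in
lemma TIA_mu (a l : ℤ) (hl : l ≠ 0) :
    (if IsCoprime a l then (1 : ℝ) else 0) =
      ∑ g ∈ l.natAbs.divisors, ((ArithmeticFunction.moebius g : ℤ) : ℝ) * (if (g : ℤ) ∣ a then 1 else 0) := by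
  have hn : Int.gcd a l ≠ 0 := by
    intro h
    exact hl (Int.gcd_eq_zero_iff.1 h).2
  have h1 : ∑ g ∈ l.natAbs.divisors, ((ArithmeticFunction.moebius g : ℤ) : ℝ) * (if (g : ℤ) ∣ a then 1 else 0) =
      ∑ g ∈ (Int.gcd a l).divisors, ((ArithmeticFunction.moebius g : ℤ) : ℝ) := by
    have h2 : (Int.gcd a l).divisors = l.natAbs.divisors.filter (fun g : ℕ => (g : ℤ) ∣ a) := by
      ext g
      rw [mem_filter, Nat.mem_divisors, Nat.mem_divisors, Int.natCast_dvd]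
      constructor
      · rintro ⟨h3, -⟩
        exact ⟨⟨h3.trans (Nat.gcd_dvd_right _ _), Int.natAbs_ne_zero.2 hl⟩, h3.trans (Nat.gcd_dvd_left _ _)⟩
      · rintro ⟨⟨h3, -⟩, h4⟩
        exact ⟨Nat.dvd_gcd h4 h3, hn⟩
    rw [h2, Finset.sum_filter]
    refine Finset.sum_congr rfl fun g _ => ?_
    split_ifs <;> simp
  rw [h1]
  have h3 : (∑ g ∈ (Int.gcd a l).divisors, (ArithmeticFunction.moebius g : ℤ)) =
      if Int.gcd a l = 1 then 1 else 0 := by
    have h4 := congrArg (fun F : ArithmeticFunction ℤ => F (Int.gcd a l)) ArithmeticFunction.coe_zeta_mul_moebius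
    simp only [ArithmeticFunction.coe_zeta_mul_apply, ArithmeticFunction.one_apply] at h4
    exact h4
  rw [← Int.cast_sum, h3]
  simp only [Int.isCoprime_iff_gcd_eq_one]
  split_ifs <;> simp

open scoped Classical in
lemma TIA_root (q : ℕ) (hq : 0 < q) (a l : ℤ) (hlq : IsCoprime l (q : ℤ)) :
    (if (q : ℤ) ∣ a ^ 2 - 8 * l ^ 2 then (1 : ℝ) else 0) =
      ∑ ν ∈ (range q).filter (fun ν : ℕ => (q : ℤ) ∣ (ν : ℤ) ^ 2 - 8),
        (if (q : ℤ) ∣ a - (ν : ℤ) * l then 1 else 0) := by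
  have hq' : (0 : ℤ) < (q : ℤ) := by exact_mod_cast hq
  obtain ⟨u, w, huw⟩ := hlq
  split_ifs with h
  · -- there is exactly one root
    have hν0 := Int.emod_nonneg (a * u) hq'.ne'
    have hν1 := Int.emod_lt_of_pos (a * u) hq'
    obtain ⟨e, he⟩ : (q : ℤ) ∣ a * u - (a * u) % q := Int.dvd_self_sub_of_emod_eq rfl
    have hcast : (((a * u) % q).toNat : ℤ) = (a * u) % q := Int.toNat_of_nonneg hν0
    have hd : (q : ℤ) ∣ a - (((a * u) % q).toNat : ℤ) * l := by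
      rw [hcast]
      refine ⟨a * w + e * l, ?_⟩
      linear_combination -a * huw + l * he
    rw [Finset.sum_eq_single ((a * u) % q).toNat]
    · rw [if_pos hd]
    · intro ν hν hne
      rw [if_neg]
      intro h2
      apply hne
      have h3 : (q : ℤ) ∣ (((a * u) % q).toNat : ℤ) - (ν : ℤ) := by
        have h4 : (q : ℤ) ∣ ((((a * u) % q).toNat : ℤ) - (ν : ℤ)) * l := by
          have h5 := dvd_sub h2 hd
          have e2 : a - (ν : ℤ) * l - (a - (((a * u) % q).toNat : ℤ) * l) =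
            ((((a * u) % q).toNat : ℤ) - (ν : ℤ)) * l := by ring
          rwa [e2] at h5
        exact IsCoprime.dvd_of_dvd_mul_right (IsCoprime.symm ⟨u, w, huw⟩) h4
      have h6 : |(((a * u) % q).toNat : ℤ) - (ν : ℤ)| < q := by
        have := mem_range.1 (mem_filter.1 hν).1
        rw [abs_lt]
        constructor <;> omega
      have := Int.eq_zero_of_abs_lt_dvd h3 h6
      omega
    · intro hcon
      exfalso
      apply hcon
      rw [mem_filter, mem_range]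
      refine ⟨by omega, ?_⟩
      -- the root
      obtain ⟨e2, he2⟩ := hd
      obtain ⟨e3, he3⟩ := h
      have h7 : (q : ℤ) ∣ ((((a * u) % q).toNat : ℤ) ^ 2 - 8) * l ^ 2 := by
        refine ⟨e3 - e2 * (a + (((a * u) % q).toNat : ℤ) * l), ?_⟩
        linear_combination he3 - (a + (((a * u) % q).toNat : ℤ) * l) * he2
      exact IsCoprime.dvd_of_dvd_mul_right (IsCoprime.symm (IsCoprime.pow_left ⟨u, w, huw⟩)) h7
  · symm
    refine Finset.sum_eq_zero fun ν hν => ?_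
    rw [if_neg]
    intro h2
    apply h
    obtain ⟨e2, he2⟩ := h2
    obtain ⟨e3, he3⟩ := (mem_filter.1 hν).2
    refine ⟨e2 * (a + (ν : ℤ) * l) + e3 * l ^ 2, ?_⟩
    linear_combination (a + (ν : ℤ) * l) * he2 + l ^ 2 * he3

/-- one class modulo `2 g q` -/
lemma TIA_crt (g q : ℕ) (hg : Odd g) (h2q : IsCoprime (2 * g : ℤ) (q : ℤ)) (b : ℤ) :
    ∃ c : ℤ, ∀ a : ℤ, (a % 2 = 1 ∧ (g : ℤ) ∣ a) ∧ (q : ℤ) ∣ a - b ↔ ((2 * g * q : ℕ) : ℤ) ∣ a - c := by
  obtain ⟨s, t, hst⟩ := h2q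
  refine ⟨g * (t * q) + b * (s * (2 * g)), fun a => ?_⟩
  have hodd : (a % 2 = 1 ∧ (g : ℤ) ∣ a) ↔ (2 * g : ℤ) ∣ a - g := by
    obtain ⟨k, hk⟩ := hg
    constructor
    · rintro ⟨h1, e, he⟩
      have h2 : e % 2 = 1 := by
        rcases Int.emod_two_eq_zero_or_one e with h3 | h3
        · exfalso
          obtain ⟨e', he'⟩ := Int.dvd_of_emod_eq_zero h3
          have h4 : a = 2 * ((g : ℤ) * e') := by rw [he, he']; ring
          omega
        · exact h3
      refine ⟨(e - 1) / 2, ?_⟩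
      have h3 : 2 * ((e - 1) / 2) = e - 1 := by omega
      have h4 : (2 * g : ℤ) * ((e - 1) / 2) = g * (2 * ((e - 1) / 2)) := by ring
      rw [h4, h3, he]
      ring
    · rintro ⟨e, he⟩
      have h1 : a = g * (2 * e + 1) := by linear_combination he
      refine ⟨?_, ⟨2 * e + 1, h1⟩⟩
      have h2 : (g : ℤ) = 2 * k + 1 := by exact_mod_cast hk
      have h3 : a = 2 * ((2 * k + 1) * e + k) + 1 := by rw [h1, h2]; ring
      omega
  rw [hodd]
  constructor
  · rintro ⟨⟨e1, he1⟩, e2, he2⟩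
    have h1 : (2 * g : ℤ) ∣ a - (g * (t * q) + b * (s * (2 * g))) := by
      refine ⟨e1 + g * s - b * s, ?_⟩
      linear_combination he1 - (g : ℤ) * hst
    have h2 : (q : ℤ) ∣ a - (g * (t * q) + b * (s * (2 * g))) := by
      refine ⟨e2 + b * t - g * t, ?_⟩
      linear_combination he2 - b * hst
    have h3 := IsCoprime.mul_dvd ⟨s, t, hst⟩ h1 h2
    push_cast
    exact h3
  · intro h
    push_cast at h
    have h1 : (2 * g : ℤ) ∣ a - (g * (t * q) + b * (s * (2 * g))) := (Dvd.intro _ rfl).trans h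
    have h2 : (q : ℤ) ∣ a - (g * (t * q) + b * (s * (2 * g))) := (Dvd.intro_left _ rfl).trans h
    obtain ⟨e1, he1⟩ := h1
    obtain ⟨e2, he2⟩ := h2
    refine ⟨⟨e1 - g * s + b * s, ?_⟩, ⟨e2 - b * t + g * t, ?_⟩⟩
    · linear_combination he1 + (g : ℤ) * hst
    · linear_combination he2 + b * hst

theorem TIA : TIA_stmt := by
  classical
  refine ⟨4, by norm_num, ?_⟩
  intro x A hx hA hAx q hq l hl1 hl2 hl3 hlq h hh
  have hq0 : 0 < q := hq.pos
  have hqR : (0 : ℝ) < (q : ℝ) := by exact_mod_cast hq0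
  have hxZ : (2 : ℤ) ≤ (x : ℤ) := by exact_mod_cast hx
  have hAxZ : (A : ℤ) ≤ (x : ℤ) := by exact_mod_cast hAx
  have hl0 : l ≠ 0 := by omega
  have hxR : (2 : ℝ) ≤ (x : ℝ) := by exact_mod_cast hx
  have hlogx : 0 ≤ Real.log x := Real.log_nonneg (by linarith)
  set f : ℤ → ℝ := fun a => Real.log ((8 * l ^ 2 - a ^ 2 : ℤ) : ℝ) ^ h with hf
  set F : ℝ := 4 * (1 + Real.log x) with hFdef
  have hF0 : 0 ≤ F := by positivity
  have hval : ∀ a : ℤ, 1 ≤ a → a ≤ A → 1 ≤ 8 * l ^ 2 - a ^ 2 ∧ 8 * l ^ 2 - a ^ 2 ≤ 32 * (x : ℤ) ^ 2 := by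
    intro a h1 h2
    constructor <;> nlinarith
  have hlog0 : ∀ a : ℤ, 1 ≤ a → a ≤ A → 0 ≤ Real.log ((8 * l ^ 2 - a ^ 2 : ℤ) : ℝ) := by
    intro a h1 h2
    apply Real.log_nonneg
    exact_mod_cast (hval a h1 h2).1
  have hlogF : ∀ a : ℤ, 1 ≤ a → a ≤ A → Real.log ((8 * l ^ 2 - a ^ 2 : ℤ) : ℝ) ≤ F := by
    intro a h1 h2
    have h3 : ((8 * l ^ 2 - a ^ 2 : ℤ) : ℝ) ≤ 32 * (x : ℝ) ^ 2 := by
      exact_mod_cast (hval a h1 h2).2
    have h4 : (0 : ℝ) < ((8 * l ^ 2 - a ^ 2 : ℤ) : ℝ) := by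
      exact_mod_cast lt_of_lt_of_le zero_lt_one (hval a h1 h2).1
    have h5 := Real.log_le_log h4 h3
    have h6 : Real.log (32 * (x : ℝ) ^ 2) = 5 * Real.log 2 + 2 * Real.log x := by
      rw [Real.log_mul (by norm_num) (by positivity), Real.log_pow]
      have : (32 : ℝ) = 2 ^ 5 := by norm_num
      rw [this, Real.log_pow]
      push_cast
      ring
    rw [h6] at h5
    have := Real.log_two_lt_d9
    rw [hFdef]
    linarith
  have hf0 : ∀ a ∈ Icc (1 : ℤ) A, 0 ≤ f a := by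
    intro a ha
    obtain ⟨h1, h2⟩ := mem_Icc.1 ha
    exact pow_nonneg (hlog0 a h1 h2) h
  have hfF : ∀ a ∈ Icc (1 : ℤ) A, f a ≤ F := by
    intro a ha
    obtain ⟨h1, h2⟩ := mem_Icc.1 ha
    simp only [hf]
    interval_cases h
    · rw [pow_zero, hFdef]
      linarith
    · rw [pow_one]
      exact hlogF a h1 h2
  have hanti : ∀ a b : ℤ, 1 ≤ a → a ≤ b → b ≤ A → f b ≤ f a := by
    intro a b h1 h2 h3
    simp only [hf]
    refine pow_le_pow_left₀ (hlog0 b (h1.trans h2) h3) ?_ h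
    refine Real.log_le_log ?_ ?_
    · exact_mod_cast lt_of_lt_of_le zero_lt_one (hval b (h1.trans h2) h3).1
    · have : 8 * l ^ 2 - b ^ 2 ≤ 8 * l ^ 2 - a ^ 2 := by nlinarith
      exact_mod_cast this
  set T : ℝ := ∑ a ∈ Icc (1 : ℤ) A, f a with hT
  have hT0 : 0 ≤ T := Finset.sum_nonneg hf0
  have hTA : T ≤ A * F := by
    calc T ≤ ∑ _a ∈ Icc (1 : ℤ) A, F := Finset.sum_le_sum hfF
      _ = A * F := by
        rw [Finset.sum_const, nsmul_eq_mul, Int.card_Icc]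
        simp
  set D : Finset ℕ := l.natAbs.divisors with hD
  set R : Finset ℕ := (range q).filter (fun ν : ℕ => (q : ℤ) ∣ (ν : ℤ) ^ 2 - 8) with hR
  have hrt : (rt q : ℝ) = (R.card : ℝ) := rfl
  set mu : ℕ → ℝ := fun g => ((ArithmeticFunction.moebius g : ℤ) : ℝ) with hmu
  have hmu1 : ∀ g, |mu g| ≤ 1 := by
    intro g
    have := ArithmeticFunction.abs_moebius_le_one (n := g)
    simp only [hmu]
    exact_mod_cast this
  set I : ℕ → ℕ → ℝ := fun g ν => ∑ a ∈ Icc (1 : ℤ) A,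
    if ((a % 2 = 1 ∧ (g : ℤ) ∣ a) ∧ (q : ℤ) ∣ a - (ν : ℤ) * l) then f a else 0 with hI
  -- decomposition
  have hdec : ∑ a ∈ Icc (1 : ℤ) A with (a % 2 = 1 ∧ IsCoprime a l ∧ (q : ℤ) ∣ a ^ 2 - 8 * l ^ 2), f a =
      ∑ g ∈ D, ∑ ν ∈ R, mu g * I g ν := by
    rw [Finset.sum_filter]
    have h1 : ∀ a ∈ Icc (1 : ℤ) A,
        (if (a % 2 = 1 ∧ IsCoprime a l ∧ (q : ℤ) ∣ a ^ 2 - 8 * l ^ 2) then f a else 0) =
        ∑ g ∈ D, ∑ ν ∈ R, mu g *
          (if ((a % 2 = 1 ∧ (g : ℤ) ∣ a) ∧ (q : ℤ) ∣ a - (ν : ℤ) * l) then f a else 0) := by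
      intro a _
      have e1 : (if (a % 2 = 1 ∧ IsCoprime a l ∧ (q : ℤ) ∣ a ^ 2 - 8 * l ^ 2) then f a else 0) =
          (if a % 2 = 1 then (1 : ℝ) else 0) * (if IsCoprime a l then (1 : ℝ) else 0) *
            (if (q : ℤ) ∣ a ^ 2 - 8 * l ^ 2 then (1 : ℝ) else 0) * f a := by
        by_cases p1 : a % 2 = 1 <;> by_cases p2 : IsCoprime a l <;>
          by_cases p3 : (q : ℤ) ∣ a ^ 2 - 8 * l ^ 2 <;> simp [p1, p2, p3]
      have e2 : ∀ w1 w2 w3 w4 : ℝ, w1 * w2 * w3 * w4 = w1 * w4 * (w2 * w3) := fun w1 w2 w3 w4 => by ring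
      rw [e1, TIA_mu a l hl0, TIA_root q hq0 a l hlq, e2, Finset.sum_mul_sum, Finset.mul_sum]
      refine Finset.sum_congr rfl fun g _ => ?_
      rw [Finset.mul_sum]
      refine Finset.sum_congr rfl fun ν _ => ?_
      by_cases p1 : a % 2 = 1 <;> by_cases p2 : (g : ℤ) ∣ a <;>
        by_cases p3 : (q : ℤ) ∣ a - (ν : ℤ) * l <;> simp [p1, p2, p3, hmu] <;> ring
    rw [Finset.sum_congr rfl h1, Finset.sum_comm]
    refine Finset.sum_congr rfl fun g _ => ?_
    rw [Finset.sum_comm]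
    refine Finset.sum_congr rfl fun ν _ => ?_
    rw [← Finset.mul_sum]
  have hgodd : ∀ g ∈ D, Odd g ∧ IsCoprime (2 * g : ℤ) (q : ℤ) := by
    intro g hg
    have hgl : (g : ℤ) ∣ l := Int.natCast_dvd.2 (Nat.dvd_of_mem_divisors hg)
    have h1 : Odd g := by
      rw [← Nat.not_even_iff_odd]
      intro he
      obtain ⟨k, hk⟩ := he
      obtain ⟨e, he⟩ := hgl
      have : l = 2 * ((k : ℤ) * e) := by
        rw [he, hk]
        push_cast
        ring
      omega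
    refine ⟨h1, ?_⟩
    have h2 : IsCoprime (2 : ℤ) (q : ℤ) := by
      obtain ⟨k, hk⟩ := hq
      refine ⟨-(k : ℤ), 1, ?_⟩
      rw [hk]
      push_cast
      ring
    have h3 : IsCoprime (g : ℤ) (q : ℤ) := IsCoprime.of_isCoprime_of_dvd_left hlq hgl
    exact IsCoprime.mul_left h2 h3
  have hIb : ∀ g ∈ D, ∀ ν ∈ R, |I g ν - T / (2 * g * q)| ≤ F := by
    intro g hg ν _
    obtain ⟨h1, h2⟩ := hgodd g hg
    obtain ⟨c, hc⟩ := TIA_crt g q h1 h2 ((ν : ℤ) * l)
    have h3 := TIA_cls A (2 * g * q) (by have := h1.pos; positivity) f F hf0 hfF hF0 hanti c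
    have h4 : I g ν = ∑ a ∈ (Icc (1 : ℤ) A).filter (fun a => ((2 * g * q : ℕ) : ℤ) ∣ a - c), f a := by
      rw [Finset.sum_filter]
      simp only [hI]
      refine Finset.sum_congr rfl fun a _ => ?_
      by_cases p : (a % 2 = 1 ∧ (g : ℤ) ∣ a) ∧ (q : ℤ) ∣ a - (ν : ℤ) * l
      · rw [if_pos p, if_pos ((hc a).1 p)]
      · rw [if_neg p, if_neg (fun h => p ((hc a).2 h))]
    rw [h4]
    push_cast at h3 ⊢
    exact h3
  -- the main term
  have hD1 : 1 ∈ D := Nat.mem_divisors.2 ⟨one_dvd _, Int.natAbs_ne_zero.2 hl0⟩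
  have hDsplit : ∑ g ∈ D, mu g / g = 1 + ∑ g ∈ D with 1 < g, mu g / g := by
    rw [← Finset.sum_filter_add_sum_filter_not D (fun g => 1 < g), add_comm]
    congr 1
    have h1 : D.filter (fun g => ¬ 1 < g) = {1} := by
      ext g
      rw [mem_filter, mem_singleton]
      constructor
      · rintro ⟨h2, h3⟩
        have := Nat.pos_of_mem_divisors h2
        omega
      · rintro rfl
        exact ⟨hD1, by omega⟩
    rw [h1, Finset.sum_singleton]
    simp [hmu]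
  have hmain : ∑ g ∈ D, ∑ ν ∈ R, mu g * (T / (2 * g * q)) =
      rt q / (2 * q) * T + rt q / (2 * q) * T * ∑ g ∈ D with 1 < g, mu g / g := by
    have h1 : ∀ g ∈ D, ∑ ν ∈ R, mu g * (T / (2 * g * q)) = rt q / (2 * q) * T * (mu g / g) := by
      intro g hg
      have hg0 : (g : ℝ) ≠ 0 := by
        have := Nat.pos_of_mem_divisors hg
        positivity
      rw [Finset.sum_const, nsmul_eq_mul, ← hrt]
      field_simp
    rw [Finset.sum_congr rfl h1, ← Finset.mul_sum, hDsplit]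
    ring
  have herr1 : |∑ g ∈ D, ∑ ν ∈ R, mu g * (I g ν - T / (2 * g * q))| ≤ F * (rt q * D.card) := by
    calc |∑ g ∈ D, ∑ ν ∈ R, mu g * (I g ν - T / (2 * g * q))|
        ≤ ∑ g ∈ D, |∑ ν ∈ R, mu g * (I g ν - T / (2 * g * q))| := Finset.abs_sum_le_sum_abs _ _
      _ ≤ ∑ g ∈ D, ∑ ν ∈ R, |mu g * (I g ν - T / (2 * g * q))| :=
          Finset.sum_le_sum fun g _ => Finset.abs_sum_le_sum_abs _ _
      _ ≤ ∑ _g ∈ D, ∑ _ν ∈ R, F := by
          refine Finset.sum_le_sum fun g hg => Finset.sum_le_sum fun ν hν => ?_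
          rw [abs_mul]
          calc |mu g| * |I g ν - T / (2 * g * q)| ≤ 1 * F :=
                mul_le_mul (hmu1 g) (hIb g hg ν hν) (abs_nonneg _) zero_le_one
            _ = F := one_mul F
      _ = F * (rt q * D.card) := by
          rw [Finset.sum_const, Finset.sum_const, nsmul_eq_mul, nsmul_eq_mul, hrt]
          ring
  have herr2 : |rt q / (2 * q) * T * ∑ g ∈ D with 1 < g, mu g / g| ≤
      F * (rt q * (A / q * ∑ g ∈ D with 1 < g, 1 / (g : ℝ))) := by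
    have h1 : |∑ g ∈ D with 1 < g, mu g / g| ≤ ∑ g ∈ D with 1 < g, 1 / (g : ℝ) := by
      refine (Finset.abs_sum_le_sum_abs _ _).trans (Finset.sum_le_sum fun g _ => ?_)
      rw [abs_div, Nat.abs_cast]
      exact div_le_div_of_nonneg_right (hmu1 g) (Nat.cast_nonneg _)
    have h2 : 0 ≤ ∑ g ∈ D with 1 < g, 1 / (g : ℝ) := Finset.sum_nonneg fun g _ => by positivity
    have h3 : (0 : ℝ) ≤ (rt q : ℝ) := Nat.cast_nonneg _
    rw [abs_mul, abs_of_nonneg (by positivity : (0 : ℝ) ≤ rt q / (2 * q) * T)]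
    calc rt q / (2 * q) * T * |∑ g ∈ D with 1 < g, mu g / g|
        ≤ rt q / (2 * q) * (A * F) * ∑ g ∈ D with 1 < g, 1 / (g : ℝ) := by
          refine mul_le_mul (mul_le_mul_of_nonneg_left hTA (by positivity)) h1 (abs_nonneg _) (by positivity)
      _ = (F * (rt q * (A / q * ∑ g ∈ D with 1 < g, 1 / (g : ℝ)))) / 2 := by
          field_simp
      _ ≤ F * (rt q * (A / q * ∑ g ∈ D with 1 < g, 1 / (g : ℝ))) := by
          have : 0 ≤ F * (rt q * (A / q * ∑ g ∈ D with 1 < g, 1 / (g : ℝ))) := by positivity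
          linarith
  have hfin : ∑ g ∈ D, ∑ ν ∈ R, mu g * I g ν - rt q / (2 * q) * T =
      ∑ g ∈ D, ∑ ν ∈ R, mu g * (I g ν - T / (2 * g * q)) +
        rt q / (2 * q) * T * ∑ g ∈ D with 1 < g, mu g / g := by
    have h1 : ∑ g ∈ D, ∑ ν ∈ R, mu g * (I g ν - T / (2 * g * q)) =
        ∑ g ∈ D, ∑ ν ∈ R, mu g * I g ν - ∑ g ∈ D, ∑ ν ∈ R, mu g * (T / (2 * g * q)) := by
      rw [← Finset.sum_sub_distrib]
      refine Finset.sum_congr rfl fun g _ => ?_
      rw [← Finset.sum_sub_distrib]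
      exact Finset.sum_congr rfl fun ν _ => by ring
    rw [h1, hmain]
    ring
  have hgoal : |∑ g ∈ D, ∑ ν ∈ R, mu g * I g ν - rt q / (2 * q) * T| ≤
      4 * (1 + Real.log x) * (rt q * (A / q * (∑ g ∈ D with 1 < g, 1 / (g : ℝ)) + D.card)) := by
    rw [hfin]
    refine (abs_add_le _ _).trans ((add_le_add herr1 herr2).trans (le_of_eq ?_))
    rw [hFdef]
    ring
  rw [← hdec] at hgoal
  exact hgoal

end Pool.Agent.FJ
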